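import Pool.Agent.H46.IS.Defs

/-!
# Conjugation by automorphs; convergent subsequences
-/

set_option autoImplicit false

namespace Pool.H31.IS

open Matrix Filter Topology Pool.Agent.H89.CSD Pool.Agent.H46.RG Pool.Agent.H46.RU
open Pool.Agent.H46.IS

variable {d : ℕ}

/-- Conjugation by a diagonal automorph. -/
theorem conj_mem {g z v : Matrix (Fin d) (Fin d) ℝ} (hg : g.det ≠ 0) (hvz : (1 + v) * z ∈ Om g)
    {a : Fin d → ℝ} (ha : a ∈ LL z) :
    (1 + Matrix.of fun k l => a k / a l * v k l) * z ∈ Om g := by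
  obtain ⟨ha1, U, hU⟩ := ha
  have ha0 : ∀ i, a i ≠ 0 := fun i => (ha1.1 i).ne'
  have hinv := Om_inv hg
  have h1 := hinv.im (hinv.diag a ha1 _ hvz) U⁻¹
  have h2 : diagonal (fun i => (a i)⁻¹) * diagonal a = (1 : Matrix (Fin d) (Fin d) ℝ) := by
    rw [Matrix.diagonal_mul_diagonal, ← Matrix.diagonal_one]
    exact congrArg diagonal (funext fun i => inv_mul_cancel₀ (ha0 i))
  have h3 : z * im ((U⁻¹ : (Matrix (Fin d) (Fin d) ℤ)ˣ) : Matrix (Fin d) (Fin d) ℤ) =
      diagonal (fun i => (a i)⁻¹) * z := by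
    calc z * im ((U⁻¹ : (Matrix (Fin d) (Fin d) ℤ)ˣ) : Matrix (Fin d) (Fin d) ℤ)
        = (diagonal (fun i => (a i)⁻¹) * diagonal a) * z *
          im ((U⁻¹ : (Matrix (Fin d) (Fin d) ℤ)ˣ) : Matrix (Fin d) (Fin d) ℤ) := by
          rw [h2, Matrix.one_mul]
      _ = diagonal (fun i => (a i)⁻¹) * (diagonal a * z) *
          im ((U⁻¹ : (Matrix (Fin d) (Fin d) ℤ)ˣ) : Matrix (Fin d) (Fin d) ℤ) := by
          simp only [Matrix.mul_assoc]
      _ = diagonal (fun i => (a i)⁻¹) * z * (im (U : Matrix (Fin d) (Fin d) ℤ) *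
          im ((U⁻¹ : (Matrix (Fin d) (Fin d) ℤ)ˣ) : Matrix (Fin d) (Fin d) ℤ)) := by
          rw [hU]
          simp only [Matrix.mul_assoc]
      _ = diagonal (fun i => (a i)⁻¹) * z := by
          rw [im_mul_inv, Matrix.mul_one]
  have h4 : diagonal a * (1 + v) * diagonal (fun i => (a i)⁻¹) =
      1 + Matrix.of fun k l => a k / a l * v k l := by
    ext k l
    rw [Matrix.mul_diagonal, Matrix.diagonal_mul, Matrix.add_apply, Matrix.add_apply,
      Matrix.of_apply]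
    by_cases hkl : k = l
    · subst hkl
      rw [Matrix.one_apply_eq]
      have := ha0 k
      field_simp
    · rw [Matrix.one_apply_ne hkl, zero_add, zero_add]
      ring
  have h5 : diagonal a * ((1 + v) * z) *
      im ((U⁻¹ : (Matrix (Fin d) (Fin d) ℤ)ˣ) : Matrix (Fin d) (Fin d) ℤ) =
      (1 + Matrix.of fun k l => a k / a l * v k l) * z := by
    calc diagonal a * ((1 + v) * z) *
        im ((U⁻¹ : (Matrix (Fin d) (Fin d) ℤ)ˣ) : Matrix (Fin d) (Fin d) ℤ)
        = diagonal a * (1 + v) * (z *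
          im ((U⁻¹ : (Matrix (Fin d) (Fin d) ℤ)ˣ) : Matrix (Fin d) (Fin d) ℤ)) := by
          simp only [Matrix.mul_assoc]
      _ = diagonal a * (1 + v) * diagonal (fun i => (a i)⁻¹) * z := by
          rw [h3, Matrix.mul_assoc (diagonal a * (1 + v))]
      _ = _ := by rw [h4]
  rw [h5] at h1
  exact h1

/-- Bounded sequences of matrices have convergent subsequences. -/
theorem exists_subseq (F : ℕ → Matrix (Fin d) (Fin d) ℝ) (R : ℝ) (h : ∀ n i j, |F n i j| ≤ R) :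
    ∃ (v : Matrix (Fin d) (Fin d) ℝ) (φ : ℕ → ℕ), StrictMono φ ∧
      Tendsto (fun n => F (φ n)) atTop (𝓝 v) := by
  have hcomp : IsCompact (Set.univ.pi (fun _ : Fin d => Set.univ.pi fun _ : Fin d =>
      Set.Icc (-R) R)) :=
    isCompact_univ_pi fun _ => isCompact_univ_pi fun _ => isCompact_Icc
  have hmem : ∀ n, (F n : Fin d → Fin d → ℝ) ∈ Set.univ.pi (fun _ : Fin d =>
      Set.univ.pi fun _ : Fin d => Set.Icc (-R) R) := by
    intro n i _ j _
    exact abs_le.1 (h n i j)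
  obtain ⟨v, -, φ, hφ, hv⟩ := hcomp.tendsto_subseq hmem
  exact ⟨v, φ, hφ, hv⟩

theorem entry_tendsto {F : ℕ → Matrix (Fin d) (Fin d) ℝ} {v : Matrix (Fin d) (Fin d) ℝ}
    (h : Tendsto F atTop (𝓝 v)) (i j : Fin d) : Tendsto (fun n => F n i j) atTop (𝓝 (v i j)) :=
  tendsto_pi_nhds.1 (tendsto_pi_nhds.1 h i) j

/-- Limits of the lattices `(1 + F n) z` in the closed orbit. -/
theorem lim_mem {g z : Matrix (Fin d) (Fin d) ℝ} (hg : g.det ≠ 0)
    {F : ℕ → Matrix (Fin d) (Fin d) ℝ} {v : Matrix (Fin d) (Fin d) ℝ}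
    (h : Tendsto F atTop (𝓝 v)) (hF : ∀ n, (1 + F n) * z ∈ Om g) : (1 + v) * z ∈ Om g := by
  refine (Om_inv hg).closed.mem_of_tendsto (f := fun n => (1 + F n) * z) (b := atTop) ?_
    (Eventually.of_forall hF)
  exact (h.const_add 1).mul_const z

end Pool.H31.IS
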